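import Pool.Agent.Y6.F.Stm

/-!
The static estimate for the pairs of the type 0.
-/

open Set Filter Topology
open scoped ComplexConjugate

set_option autoImplicit false

namespace Pool.Agent.Y180.EF.ST0

open Pool.Agent.Y6.F
open Pool.Agent.Y6.M (Uth εc Md Frame cK)

lemma αM_succ (n : ℕ) : αM (n + 1) = αM n ^ (2 * n + 60) := by
  have h : al (n + 1) = al n ^ (2 * n + 60) := rfl
  unfold αM
  rw [h, Nat.cast_pow]

lemma αM_ge (n : ℕ) : (10 : ℝ) ^ 100 ≤ αM n := by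
  induction n with
  | zero =>
    have h : al 0 = 10 ^ 100 := rfl
    unfold αM
    rw [h, Nat.cast_pow, Nat.cast_ofNat]
  | succ n ih =>
    rw [αM_succ]
    have h1 : (1 : ℝ) ≤ αM n := le_trans (one_le_pow₀ (by norm_num)) ih
    exact ih.trans (le_self_pow₀ h1 (by omega))

lemma num_aux (x : ℝ) (n : ℕ) (hx : (10 : ℝ) ^ 100 ≤ x) :
    2 * Real.pi * x * (2 * (√(x ^ (2 * n + 60)))⁻¹) * (2 * (√(x ^ (2 * n + 60)))⁻¹) ≤
      1 / 32 * ((10 ^ 20)⁻¹ / 10 * (x ^ 7)⁻¹ * (x ^ (n + 1))⁻¹) := by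
  have hx1 : (1 : ℝ) ≤ x := le_trans (one_le_pow₀ (by norm_num)) hx
  have hx0 : 0 < x := lt_of_lt_of_le one_pos hx1
  have h51 : (10 : ℝ) ^ 100 ≤ x ^ (n + 51) := hx.trans (le_self_pow₀ hx1 (by omega))
  have hs : (√(x ^ (2 * n + 60)))⁻¹ * (√(x ^ (2 * n + 60)))⁻¹ = (x ^ (2 * n + 60))⁻¹ := by
    rw [← mul_inv, Real.mul_self_sqrt (by positivity)]
  have hpw : x ^ (2 * n + 60) = x * x ^ 7 * x ^ (n + 1) * x ^ (n + 51) := by
    rw [show 2 * n + 60 = 1 + 7 + (n + 1) + (n + 51) by ring, pow_add, pow_add, pow_add, pow_one]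
  have e1 : 2 * Real.pi * x * (2 * (√(x ^ (2 * n + 60)))⁻¹) * (2 * (√(x ^ (2 * n + 60)))⁻¹) =
      (x ^ 7)⁻¹ * (x ^ (n + 1))⁻¹ * (8 * Real.pi * (x ^ (n + 51))⁻¹) := by
    calc 2 * Real.pi * x * (2 * (√(x ^ (2 * n + 60)))⁻¹) * (2 * (√(x ^ (2 * n + 60)))⁻¹)
        = 8 * Real.pi * x * ((√(x ^ (2 * n + 60)))⁻¹ * (√(x ^ (2 * n + 60)))⁻¹) := by ring
      _ = 8 * Real.pi * x * (x * x ^ 7 * x ^ (n + 1) * x ^ (n + 51))⁻¹ := by rw [hs, hpw]
      _ = 8 * Real.pi * (x * x⁻¹) * ((x ^ 7)⁻¹ * (x ^ (n + 1))⁻¹ * (x ^ (n + 51))⁻¹) := by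
        rw [mul_inv, mul_inv, mul_inv]; ring
      _ = _ := by rw [mul_inv_cancel₀ hx0.ne']; ring
  have e2 : 1 / 32 * ((10 ^ 20)⁻¹ / 10 * (x ^ 7)⁻¹ * (x ^ (n + 1))⁻¹) =
      (x ^ 7)⁻¹ * (x ^ (n + 1))⁻¹ * (1 / 32 * ((10 ^ 20)⁻¹ / 10)) := by ring
  rw [e1, e2]
  refine mul_le_mul_of_nonneg_left ?_ (by positivity)
  have h1 : (x ^ (n + 51))⁻¹ ≤ ((10 : ℝ) ^ 100)⁻¹ := inv_anti₀ (by positivity) h51
  have h2 : 8 * Real.pi ≤ 32 := by linarith [Real.pi_le_four]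
  calc 8 * Real.pi * (x ^ (n + 51))⁻¹ ≤ 32 * ((10 : ℝ) ^ 100)⁻¹ :=
        mul_le_mul h2 h1 (by positivity) (by norm_num)
    _ ≤ _ := by norm_num

theorem t_ST0 : S_ST 0 := by
  intro hLV hCODE hSUMS hVEC hLAT hENV h hh M hM i hi
  classical
  obtain ⟨-, hfin, hbig, -⟩ := hSUMS
  obtain ⟨hPf, hPc⟩ := hfin i.1.1 i.1.2
  obtain ⟨-, hcK, -⟩ := hVEC h hh
  obtain ⟨hmono, -, hzone, -, hpos⟩ := hENV.1 M hM
  set P : Set (Md × Md) := {p | σM p.1 = 0 ∧ σM p.2 = 0 ∧ p.1.1.1 + p.2.1.1 = i.1.1} with hP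
  set f : Md × Md → ℝ := fun p => if Ty i p = 0 then tm h M i p else 0 with hf
  set R : ℝ := (10 ^ 20)⁻¹ / 10 * (ln i ^ 7)⁻¹ * env M (ln i) with hR
  have hln : 0 ≤ ln i := Real.sqrt_nonneg _
  have hR0 : 0 ≤ R := by
    have := (hpos (ln i)).1.le
    positivity
  -- the type 0
  have hty : ∀ p, Ty i p = 0 → σM p.1 = 0 ∧ σM p.2 = 0 ∧
      ¬ (ln p.1 ≤ 4 * ln i ∧ ln p.2 ≤ 4 * ln i) := by
    intro p hp
    unfold Ty at hp
    split_ifs at hp with h1 h2 h3 h4 h5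
    exact ⟨h1, h2, h3⟩
  have htm : ∀ p, Ty i p = 0 → tm h M i p =
      ‖cK h i p.1 p.2‖ * env M (ln p.1) * env M (ln p.2) := by
    intro p hp
    obtain ⟨h1, h2, h3⟩ := hty p hp
    have hD : D0 i p = 0 := by
      unfold D0
      rw [if_pos h1, if_pos h2, if_neg h3]
    unfold tm
    rw [if_neg (by rw [hD]; exact lt_irrefl _)]
    unfold eF
    rw [if_pos h1, if_pos h2]
  have hsupp : ∀ p, p ∉ P → f p = 0 := by
    intro p hp
    simp only [hf]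
    split_ifs with h1
    · obtain ⟨h2, h3, -⟩ := hty p h1
      rw [htm p h1]
      have h4 : ¬ p.1.1.1 + p.2.1.1 = i.1.1 := fun h4 => hp ⟨h2, h3, h4⟩
      have h5 : cK h i p.1 p.2 = 0 := by
        unfold cK
        rw [if_neg h4]
      rw [h5, norm_zero, zero_mul, zero_mul]
    · rfl
  have hle : ∀ p ∈ P, f p ≤ 1 / 32 * R := by
    intro p hp
    simp only [hf]
    split_ifs with h1
    swap
    · positivity
    obtain ⟨h2, h3, h4⟩ := hty p h1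
    rw [htm p h1]
    rcases hbig i p.1 p.2 h2 h3 hp.2.2 with h5 | ⟨n, h5, h6, h7⟩
    · exact absurd h5 h4
    have hα : 0 < αM (n + 1) := lt_of_lt_of_le (by positivity) (αM_ge (n + 1))
    have hα' : 0 < αM n := lt_of_lt_of_le (by positivity) (αM_ge n)
    have hz : env M (αM (n + 1)) = M (n + 1) :=
      hzone (n + 1) (αM (n + 1)) (by linarith) (by linarith)
    have hz' : env M (αM n) = M n := hzone n (αM n) (by linarith) (by linarith)
    have hU := hM.hi n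
    have ha : env M (ln p.1) ≤ 2 * Uth αM (n + 1) :=
      ((hmono _ _ hα h6).trans hz.le).trans hU
    have hb : env M (ln p.2) ≤ 2 * Uth αM (n + 1) :=
      ((hmono _ _ hα h7).trans hz.le).trans hU
    have hc : ‖cK h i p.1 p.2‖ ≤ 2 * Real.pi * αM n := by
      rw [← h5]
      exact (hcK i p.1 p.2).1
    have hU0 : 0 ≤ Uth αM (n + 1) := inv_nonneg.mpr (Real.sqrt_nonneg _)
    calc ‖cK h i p.1 p.2‖ * env M (ln p.1) * env M (ln p.2)
        ≤ 2 * Real.pi * αM n * (2 * Uth αM (n + 1)) * (2 * Uth αM (n + 1)) := by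
          have := (hpos (ln p.1)).1.le
          have := (hpos (ln p.2)).1.le
          gcongr
      _ = 2 * Real.pi * αM n * (2 * (√(αM n ^ (2 * n + 60)))⁻¹) *
            (2 * (√(αM n ^ (2 * n + 60)))⁻¹) := by
          unfold Uth
          rw [αM_succ]
      _ ≤ 1 / 32 * ((10 ^ 20)⁻¹ / 10 * (αM n ^ 7)⁻¹ * (αM n ^ (n + 1))⁻¹) :=
          num_aux _ n (αM_ge n)
      _ ≤ 1 / 32 * R := by
          rw [hR, h5, hz']
          have hlo := hM.lo n
          unfold εc at hlo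
          gcongr
  have hfs : Function.support f ⊆ P := by
    intro p hp
    by_contra h1
    exact hp (hsupp p h1)
  have hff : (Function.support f).Finite := hPf.subset hfs
  refine ⟨summable_of_finite_support hff, ?_⟩
  change ∑' p, f p ≤ R
  rw [tsum_eq_sum (s := hPf.toFinset) (fun p hp => hsupp p (fun h1 => hp (hPf.mem_toFinset.mpr h1)))]
  calc ∑ p ∈ hPf.toFinset, f p ≤ ∑ p ∈ hPf.toFinset, 1 / 32 * R :=
        Finset.sum_le_sum fun p hp => hle p (hPf.mem_toFinset.mp hp)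
    _ = hPf.toFinset.card * (1 / 32 * R) := by rw [Finset.sum_const, nsmul_eq_mul]
    _ ≤ 32 * (1 / 32 * R) := by
        refine mul_le_mul_of_nonneg_right ?_ (by positivity)
        rw [← Set.ncard_eq_toFinset_card P hPf]
        exact_mod_cast hPc
    _ = R := by ring

end Pool.Agent.Y180.EF.ST0
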